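import Mathlib

/-!
Counting lemmas for the base graphs used in the lower bound for local representations.
-/

namespace Pool.Agent.Work.MP_3772ec_co

open Finset

/-- The vertex set of the base graph: `N` vertices on the left and `d` blocks of `q` vertices
on the right. -/
abbrev W (N d q : ℕ) : Type := Fin N ⊕ (Fin d × Fin q)

variable {N d q : ℕ}

/-- The edges of the base graph given by `F` having both ends in `S`.  The base graph joins
the left vertex `u` to the vertex `F (u, j)` of the block `j`. -/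
def eIn (F : Fin N × Fin d → Fin q) (S : Finset (W N d q)) : Finset (Fin N × Fin d) :=
  univ.filter (fun p => (Sum.inl p.1 : W N d q) ∈ S ∧ (Sum.inr (p.2, F p) : W N d q) ∈ S)

lemma sum_pow_eIn (hq : 0 < q) (z : ℝ) (hz : 1 ≤ z) (S : Finset (W N d q)) :
    ∑ F : Fin N × Fin d → Fin q, z ^ (eIn F S).card
      ≤ (q : ℝ) ^ (N * d) * Real.exp ((z - 1) * (S.card : ℝ) ^ 2 / q) := by
  classical
  have hq' : (0 : ℝ) < q := by exact_mod_cast hq
  set SU : Finset (Fin N) := univ.filter (fun u => (Sum.inl u : W N d q) ∈ S) with hSU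
  set SV : Finset (Fin d × Fin q) := univ.filter (fun v => (Sum.inr v : W N d q) ∈ S) with hSV
  have hSUc : SU.card ≤ S.card := by
    have : (SU.map ⟨fun u => (Sum.inl u : W N d q), Sum.inl_injective⟩) ⊆ S := by
      intro x hx
      simp only [hSU, mem_map, mem_filter, mem_univ, true_and, Function.Embedding.coeFn_mk] at hx
      obtain ⟨u, hu, rfl⟩ := hx
      exact hu
    calc SU.card = _ := (card_map _).symm
      _ ≤ S.card := card_le_card this
  have hSVc : SV.card ≤ S.card := by
    have : (SV.map ⟨fun u => (Sum.inr u : W N d q), Sum.inr_injective⟩) ⊆ S := by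
      intro x hx
      simp only [hSV, mem_map, mem_filter, mem_univ, true_and, Function.Embedding.coeFn_mk] at hx
      obtain ⟨u, hu, rfl⟩ := hx
      exact hu
    calc SV.card = _ := (card_map _).symm
      _ ≤ S.card := card_le_card this
  -- write the power as a product
  let g : (Fin N × Fin d) → Fin q → ℝ := fun p y =>
    if (Sum.inl p.1 : W N d q) ∈ S ∧ (Sum.inr (p.2, y) : W N d q) ∈ S then z else 1
  have h1 : ∀ F : Fin N × Fin d → Fin q, z ^ (eIn F S).card = ∏ p, g p (F p) := by
    intro F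
    simp only [g, Finset.prod_ite, prod_const, one_pow, mul_one, eIn]
  simp_rw [h1]
  have h2 : ∑ F : Fin N × Fin d → Fin q, ∏ p, g p (F p) = ∏ p, ∑ y, g p y := by
    rw [Finset.prod_univ_sum, Fintype.piFinset_univ]
  rw [h2]
  -- the number of chosen elements in block j
  let s : Fin d → ℕ := fun j => (univ.filter (fun y : Fin q => (Sum.inr (j, y) : W N d q) ∈ S)).card
  let a : Fin N → ℝ := fun u => if (Sum.inl u : W N d q) ∈ S then 1 else 0
  have h3 : ∀ p : Fin N × Fin d, ∑ y, g p y ≤ (q : ℝ) * Real.exp ((z - 1) / q * (a p.1 * s p.2)) := by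
    intro p
    by_cases hp : (Sum.inl p.1 : W N d q) ∈ S
    · have : ∑ y, g p y = (q : ℝ) + (z - 1) * s p.2 := by
        have e1 : ∀ y, g p y = 1 + (z - 1) * (if (Sum.inr (p.2, y) : W N d q) ∈ S then 1 else 0) := by
          intro y
          by_cases hy : (Sum.inr (p.2, y) : W N d q) ∈ S
          · simp [g, hp, hy]
          · simp [g, hy]
        simp_rw [e1]
        rw [sum_add_distrib, ← mul_sum]
        simp [s]
      rw [this]
      have hexp := Real.add_one_le_exp ((z - 1) / q * (a p.1 * s p.2))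
      have ha : a p.1 = 1 := by simp [a, hp]
      rw [ha] at hexp ⊢
      have : (q : ℝ) + (z - 1) * s p.2 = q * ((z - 1) / q * (1 * s p.2) + 1) := by
        field_simp
        ring
      rw [this]
      exact mul_le_mul_of_nonneg_left hexp hq'.le
    · have ha : a p.1 = 0 := by simp [a, hp]
      have : ∑ y, g p y = (q : ℝ) := by
        simp [g, hp]
      rw [this, ha]
      simp
  have h4 : ∏ p, ∑ y, g p y ≤ ∏ p : Fin N × Fin d, ((q : ℝ) * Real.exp ((z - 1) / q * (a p.1 * s p.2))) := by
    apply prod_le_prod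
    · intro p _
      apply sum_nonneg
      intro y _
      simp only [g]
      split_ifs <;> linarith
    · intro p _
      exact h3 p
  refine h4.trans ?_
  rw [prod_mul_distrib, ← Real.exp_sum, prod_const, card_univ, Fintype.card_prod, Fintype.card_fin,
    Fintype.card_fin]
  apply mul_le_mul_of_nonneg_left _ (by positivity)
  apply Real.exp_le_exp.mpr
  rw [← mul_sum]
  have h5 : ∑ p : Fin N × Fin d, a p.1 * (s p.2 : ℝ) = (∑ u, a u) * ∑ j, (s j : ℝ) := by
    rw [Fintype.sum_prod_type, sum_mul_sum]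
  have h6 : ∑ u, a u = SU.card := by
    simp [a, hSU]
  have h7 : ∑ j, (s j : ℝ) = SV.card := by
    have : SV.card = ∑ j, s j := by
      rw [hSV, card_filter, Fintype.sum_prod_type]
      apply sum_congr rfl
      intro j _
      simp only [s]
      rw [card_filter]
    rw [this]
    push_cast
    rfl
  rw [h5, h6, h7]
  have h8 : (SU.card : ℝ) * SV.card ≤ (S.card : ℝ) ^ 2 := by
    have h9 : (SU.card : ℝ) ≤ S.card := by exact_mod_cast hSUc
    have h10 : (SV.card : ℝ) ≤ S.card := by exact_mod_cast hSVc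
    have : (0 : ℝ) ≤ SU.card := by positivity
    have : (0 : ℝ) ≤ SV.card := by positivity
    nlinarith
  have h11 : 0 ≤ (z - 1) / q := div_nonneg (by linarith) hq'.le
  calc (z - 1) / q * ((SU.card : ℝ) * SV.card) ≤ (z - 1) / q * (S.card : ℝ) ^ 2 :=
        mul_le_mul_of_nonneg_left h8 h11
    _ = (z - 1) * (S.card : ℝ) ^ 2 / q := by ring

lemma card_bad_le (hq : 0 < q) (z : ℝ) (hz : 1 ≤ z) (S : Finset (W N d q)) (c : ℕ) :
    ((univ.filter (fun F : Fin N × Fin d → Fin q => c ≤ (eIn F S).card)).card : ℝ) * z ^ c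
      ≤ (q : ℝ) ^ (N * d) * Real.exp ((z - 1) * (S.card : ℝ) ^ 2 / q) := by
  classical
  refine le_trans ?_ (sum_pow_eIn hq z hz S)
  rw [← nsmul_eq_mul, ← sum_const]
  calc ∑ _x ∈ univ.filter (fun F : Fin N × Fin d → Fin q => c ≤ (eIn F S).card), z ^ c
      ≤ ∑ F ∈ univ.filter (fun F : Fin N × Fin d → Fin q => c ≤ (eIn F S).card),
          z ^ (eIn F S).card := by
        apply sum_le_sum
        intro F hF
        exact pow_le_pow_right₀ hz (by simpa using hF)
    _ ≤ ∑ F : Fin N × Fin d → Fin q, z ^ (eIn F S).card := by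
        apply sum_le_sum_of_subset_of_nonneg (filter_subset _ _)
        intro F _ _
        positivity


lemma exp_le_four_pow (k : ℕ) : Real.exp (k : ℝ) ≤ 4 ^ k := by
  rw [← Real.exp_one_pow]
  apply pow_le_pow_left₀ (Real.exp_pos _).le
  linarith [Real.exp_one_lt_three]

/-- Existence of a base graph without dense spots. -/
lemma exists_good (κ : ℕ) (hκ : 1 ≤ κ) (hq : κ * q = 16 ^ κ) (hN : N = 2 * 256 ^ κ)
    (hd : d = 2 * (κ * 16 ^ κ) + 1) :
    ∃ F : Fin N × Fin d → Fin q,
      (∀ S : Finset (W N d q), S.card ≤ 2 ^ κ → (eIn F S).card ≤ 8 * S.card) ∧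
      (∀ S : Finset (W N d q), S.card ≤ 16 ^ κ → (eIn F S).card ≤ 24 * κ * S.card) := by
  classical
  have hq0 : 0 < q := by
    rcases Nat.eq_zero_or_pos q with h | h
    · subst h; simp at hq
      exact absurd hq.symm (by positivity)
    · exact h
  have hqR : (0 : ℝ) < q := by exact_mod_cast hq0
  have hκR : (1 : ℝ) ≤ κ := by exact_mod_cast hκ
  have hqκ : (κ : ℝ) * q = 16 ^ κ := by exact_mod_cast hq
  by_contra hcon
  push Not at hcon
  -- bad sets
  let bad1 : Finset (W N d q) → Finset (Fin N × Fin d → Fin q) := fun S =>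
    if S.card ≤ 2 ^ κ then univ.filter (fun F => 8 * S.card ≤ (eIn F S).card) else ∅
  let bad2 : Finset (W N d q) → Finset (Fin N × Fin d → Fin q) := fun S =>
    if S.card ≤ 16 ^ κ then univ.filter (fun F => 24 * κ * S.card ≤ (eIn F S).card) else ∅
  set x : ℝ := 1 / 4 ^ (7 * κ) with hx
  have hx0 : 0 < x := by positivity
  have hb1 : ∀ S : Finset (W N d q), 1 ≤ S.card → ((bad1 S).card : ℝ) ≤ (q : ℝ) ^ (N * d) * x ^ S.card := by
    intro S hS
    by_cases h : S.card ≤ 2 ^ κ
    · simp only [bad1, h, if_true]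
      have h1 := card_bad_le hq0 ((4 : ℝ) ^ κ) (one_le_pow₀ (by norm_num)) S (8 * S.card)
      have h2 : (((4 : ℝ) ^ κ) - 1) * (S.card : ℝ) ^ 2 / q ≤ κ := by
        rw [div_le_iff₀ hqR, hqκ]
        have h3 : (S.card : ℝ) ≤ 2 ^ κ := by exact_mod_cast h
        have h4 : (S.card : ℝ) ^ 2 ≤ 4 ^ κ := by
          calc (S.card : ℝ) ^ 2 ≤ (2 ^ κ) ^ 2 := pow_le_pow_left₀ (by positivity) h3 2
            _ = 4 ^ κ := by rw [← pow_mul, mul_comm, pow_mul]; norm_num
        have h5 : (16 : ℝ) ^ κ = 4 ^ κ * 4 ^ κ := by rw [← mul_pow]; norm_num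
        rw [h5]
        have h6 : (1 : ℝ) ≤ 4 ^ κ := one_le_pow₀ (by norm_num)
        nlinarith [sq_nonneg (S.card : ℝ)]
      have h3 : Real.exp ((((4 : ℝ) ^ κ) - 1) * (S.card : ℝ) ^ 2 / q) ≤ 4 ^ κ :=
        (Real.exp_le_exp.mpr h2).trans (exp_le_four_pow κ)
      have h4 : ((univ.filter (fun F : Fin N × Fin d → Fin q => 8 * S.card ≤ (eIn F S).card)).card : ℝ)
          * (4 ^ κ) ^ (8 * S.card) ≤ (q : ℝ) ^ (N * d) * 4 ^ κ :=
        h1.trans (mul_le_mul_of_nonneg_left h3 (by positivity))
      have h5 : (0 : ℝ) < (4 ^ κ) ^ (8 * S.card) := by positivity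
      rw [← le_div_iff₀ h5] at h4
      refine h4.trans ?_
      rw [mul_div_assoc]
      apply mul_le_mul_of_nonneg_left _ (by positivity)
      rw [hx, div_pow, one_pow, div_le_div_iff₀ h5 (by positivity), one_mul, ← pow_mul, ← pow_mul,
        ← pow_add]
      apply pow_le_pow_right₀ (by norm_num)
      nlinarith
    · simp only [bad1, h, if_false]
      simp
      positivity
  have hb2 : ∀ S : Finset (W N d q), 1 ≤ S.card → ((bad2 S).card : ℝ) ≤ (q : ℝ) ^ (N * d) * x ^ S.card := by
    intro S hS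
    by_cases h : S.card ≤ 16 ^ κ
    · simp only [bad2, h, if_true]
      have h1 := card_bad_le hq0 (2 : ℝ) (by norm_num) S (24 * κ * S.card)
      have h2 : ((2 : ℝ) - 1) * (S.card : ℝ) ^ 2 / q ≤ ((κ * S.card : ℕ) : ℝ) := by
        rw [div_le_iff₀ hqR]
        push_cast
        have h3 : (S.card : ℝ) ≤ 16 ^ κ := by exact_mod_cast h
        have h4 : (κ : ℝ) * S.card * q = 16 ^ κ * S.card := by rw [← hqκ]; ring
        rw [h4]
        nlinarith [sq_nonneg (S.card : ℝ), (by positivity : (0:ℝ) ≤ S.card)]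
      have h3 : Real.exp (((2 : ℝ) - 1) * (S.card : ℝ) ^ 2 / q) ≤ 4 ^ (κ * S.card) :=
        (Real.exp_le_exp.mpr h2).trans (exp_le_four_pow _)
      have h4 : ((univ.filter (fun F : Fin N × Fin d → Fin q => 24 * κ * S.card ≤ (eIn F S).card)).card : ℝ)
          * 2 ^ (24 * κ * S.card) ≤ (q : ℝ) ^ (N * d) * 4 ^ (κ * S.card) :=
        h1.trans (mul_le_mul_of_nonneg_left h3 (by positivity))
      have h5 : (0 : ℝ) < 2 ^ (24 * κ * S.card) := by positivity
      rw [← le_div_iff₀ h5] at h4
      refine h4.trans ?_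
      rw [mul_div_assoc]
      apply mul_le_mul_of_nonneg_left _ (by positivity)
      rw [hx, div_pow, one_pow, div_le_div_iff₀ h5 (by positivity), one_mul, ← pow_mul,
        ← pow_add]
      have h6 : (2 : ℝ) ^ (24 * κ * S.card) = 4 ^ (12 * κ * S.card) := by
        have : 24 * κ * S.card = 2 * (12 * κ * S.card) := by ring
        rw [this, pow_mul]
        norm_num
      rw [h6]
      apply pow_le_pow_right₀ (by norm_num)
      nlinarith
    · simp only [bad2, h, if_false]
      simp
      positivity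
  -- every F is bad
  have hcover : (univ : Finset (Fin N × Fin d → Fin q)) ⊆
      (univ.filter (fun S : Finset (W N d q) => 1 ≤ S.card)).biUnion (fun S => bad1 S ∪ bad2 S) := by
    intro F _
    rw [mem_biUnion]
    by_cases hF : ∀ S : Finset (W N d q), S.card ≤ 2 ^ κ → (eIn F S).card ≤ 8 * S.card
    · obtain ⟨S, hS1, hS2⟩ := hcon F hF
      refine ⟨S, ?_, ?_⟩
      · simp only [mem_filter, mem_univ, true_and]
        by_contra h0
        have h0' : S = ∅ := by
          rw [← Finset.card_eq_zero]; omega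
        subst h0'
        simp [eIn] at hS2
      · rw [mem_union]
        right
        simp only [bad2, hS1, if_true, mem_filter, mem_univ, true_and]
        exact hS2.le
    · push Not at hF
      obtain ⟨S, hS1, hS2⟩ := hF
      refine ⟨S, ?_, ?_⟩
      · simp only [mem_filter, mem_univ, true_and]
        by_contra h0
        have h0' : S = ∅ := by
          rw [← Finset.card_eq_zero]; omega
        subst h0'
        simp [eIn] at hS2
      · rw [mem_union]
        left
        simp only [bad1, hS1, if_true, mem_filter, mem_univ, true_and]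
        exact hS2.le
  have hcard : ((q : ℝ) ^ (N * d)) ≤ ∑ S ∈ univ.filter (fun S : Finset (W N d q) => 1 ≤ S.card),
      2 * ((q : ℝ) ^ (N * d) * x ^ S.card) := by
    have h1 : ((univ : Finset (Fin N × Fin d → Fin q)).card : ℝ) = (q : ℝ) ^ (N * d) := by
      rw [card_univ]; simp
    rw [← h1]
    calc ((univ : Finset (Fin N × Fin d → Fin q)).card : ℝ)
        ≤ (((univ.filter (fun S : Finset (W N d q) => 1 ≤ S.card)).biUnion (fun S => bad1 S ∪ bad2 S)).card : ℝ) := by
          exact_mod_cast card_le_card hcover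
      _ ≤ ∑ S ∈ univ.filter (fun S : Finset (W N d q) => 1 ≤ S.card), ((bad1 S ∪ bad2 S).card : ℝ) := by
          exact_mod_cast card_biUnion_le
      _ ≤ ∑ S ∈ univ.filter (fun S : Finset (W N d q) => 1 ≤ S.card), 2 * ((q : ℝ) ^ (N * d) * x ^ S.card) := by
          apply sum_le_sum
          intro S hS
          simp only [mem_filter, mem_univ, true_and] at hS
          have h2 : ((bad1 S ∪ bad2 S).card : ℝ) ≤ (bad1 S).card + (bad2 S).card := by
            exact_mod_cast card_union_le _ _
          have := hb1 S hS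
          have := hb2 S hS
          linarith
      _ = _ := by rw [h1]
  -- evaluate the sum
  have hsum : ∑ S : Finset (W N d q), x ^ S.card = (x + 1) ^ (N + d * q) := by
    have := Finset.sum_pow_mul_eq_add_pow x 1 (univ : Finset (W N d q))
    simp only [one_pow, mul_one, powerset_univ, card_univ, Fintype.card_sum, Fintype.card_prod,
      Fintype.card_fin] at this
    exact this
  have hsum2 : ∑ S ∈ univ.filter (fun S : Finset (W N d q) => 1 ≤ S.card), x ^ S.card
      = (x + 1) ^ (N + d * q) - 1 := by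
    rw [← hsum, ← Finset.sum_filter_add_sum_filter_not univ (fun S : Finset (W N d q) => 1 ≤ S.card)]
    have : (univ.filter (fun S : Finset (W N d q) => ¬ 1 ≤ S.card)) = {∅} := by
      ext S
      simp
    rw [this]
    simp
  rw [← mul_sum, ← mul_sum, hsum2] at hcard
  have hqN : (0 : ℝ) < (q : ℝ) ^ (N * d) := by positivity
  have hc2 : 1 ≤ 2 * ((x + 1) ^ (N + d * q) - 1) := by
    by_contra h
    push Not at h
    nlinarith
  have hn : ((N + d * q : ℕ) : ℝ) ≤ 5 * 256 ^ κ := by
    have h1 : N + d * q ≤ 5 * 256 ^ κ := by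
      rw [hN, hd]
      have h2 : (2 * (κ * 16 ^ κ) + 1) * q = 2 * 16 ^ κ * (κ * q) + q := by ring
      rw [h2, hq]
      have h3 : q ≤ 16 ^ κ := by rw [← hq]; nlinarith
      have h4 : 16 ^ κ * 16 ^ κ = 256 ^ κ := by rw [← mul_pow]; norm_num
      have h5 : 16 ^ κ ≤ 16 ^ κ * 16 ^ κ := Nat.le_mul_of_pos_left _ (by positivity)
      nlinarith
    exact_mod_cast h1
  have hxn : ((N + d * q : ℕ) : ℝ) * x ≤ 5 / 64 := by
    have h0 : ((N + d * q : ℕ) : ℝ) * x ≤ 5 * 256 ^ κ * x := mul_le_mul_of_nonneg_right hn hx0.le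
    refine h0.trans ?_
    rw [hx, pow_mul]
    have h1 : ((4 : ℝ) ^ 7) ^ κ = 64 ^ κ * 256 ^ κ := by rw [← mul_pow]; norm_num
    rw [h1]
    have h2 : (5 : ℝ) * 256 ^ κ * (1 / (64 ^ κ * 256 ^ κ)) = 5 / 64 ^ κ := by
      field_simp
    rw [h2]
    apply div_le_div_of_nonneg_left (by norm_num) (by norm_num)
    calc (64 : ℝ) = 64 ^ 1 := by norm_num
      _ ≤ 64 ^ κ := pow_le_pow_right₀ (by norm_num) hκ
  have h7 : (x + 1) ^ (N + d * q) ≤ Real.exp (5 / 64) := by
    calc (x + 1) ^ (N + d * q) ≤ (Real.exp x) ^ (N + d * q) :=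
          pow_le_pow_left₀ (by positivity) (Real.add_one_le_exp x) _
      _ = Real.exp (((N + d * q : ℕ) : ℝ) * x) := by rw [← Real.exp_nat_mul]
      _ ≤ Real.exp (5 / 64) := Real.exp_le_exp.mpr hxn
  have h8 : Real.exp (5 / 64) ≤ 64 / 59 := by
    have h9 := Real.add_one_le_exp (-(5 / 64 : ℝ))
    rw [Real.exp_neg] at h9
    have h10 : (59 / 64 : ℝ) ≤ (Real.exp (5 / 64))⁻¹ := by linarith
    have h11 : (0 : ℝ) < Real.exp (5 / 64) := Real.exp_pos _
    rw [le_inv_comm₀ (by norm_num) h11] at h10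
    linarith [h10, (by norm_num : ((59 : ℝ) / 64)⁻¹ = 64 / 59)]
  linarith

end Pool.Agent.Work.MP_3772ec_co
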