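import Mathlib
import Pool.Agent.Work.MP_3772ec_co.Base

/-!
Subgraphs of the base graph, and the counting argument against decoders.
-/

namespace Pool.Agent.Work.MP_3772ec_co
open Finset

variable {N d q : ℕ}

/-- The subgraph of the base graph given by `F` whose edges are those indexed by `T`. -/
def gr (F : Fin N × Fin d → Fin q) (T : Finset (Fin N × Fin d)) : SimpleGraph (W N d q) :=
  SimpleGraph.fromRel (fun a b => ∃ p ∈ T, a = Sum.inl p.1 ∧ b = Sum.inr (p.2, F p))

lemma gr_adj_edge (F : Fin N × Fin d → Fin q) (T : Finset (Fin N × Fin d)) (p : Fin N × Fin d) :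
    (gr F T).Adj (Sum.inl p.1) (Sum.inr (p.2, F p)) ↔ p ∈ T := by
  unfold gr
  rw [SimpleGraph.fromRel_adj]
  constructor
  · rintro ⟨-, ⟨p', hp', h1, h2⟩ | ⟨p', hp', h1, h2⟩⟩
    · have e1 : p.1 = p'.1 := Sum.inl_injective h1
      have e2 : (p.2, F p) = (p'.2, F p') := Sum.inr_injective h2
      have e3 : p.2 = p'.2 := (Prod.mk.inj e2).1
      have : p = p' := Prod.ext e1 e3
      rw [this]; exact hp'
    · exact absurd h1 (by simp)
  · intro hp
    exact ⟨by simp, Or.inl ⟨p, hp, rfl, rfl⟩⟩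

/-- Counting: a large family of subgraphs of the base graph defeats every decoder. -/
lemma exists_family (F : Fin N × Fin d → Fin q) (B : ℕ) (h : 1 + B * (N + d * q) < N * d) :
    ∃ T : Fin (2 ^ (2 * B)) → Finset (Fin N × Fin d),
      ∀ A : Fin (2 ^ B) → Fin (2 ^ B) → Bool, ∃ t, ∀ l : W N d q → Fin (2 ^ B),
        ∃ v w, v ≠ w ∧ ¬ ((gr F (T t)).Adj v w ↔ A (l v) (l w) = true) := by
  classical
  by_contra hcon
  push Not at hcon
  let Φ : (Fin (2 ^ B) → Fin (2 ^ B) → Bool) × (Fin (2 ^ (2 * B)) → W N d q → Fin (2 ^ B)) →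
      (Fin (2 ^ (2 * B)) → Finset (Fin N × Fin d)) := fun X t =>
    univ.filter (fun p => X.1 (X.2 t (Sum.inl p.1)) (X.2 t (Sum.inr (p.2, F p))) = true)
  have hsurj : Function.Surjective Φ := by
    intro T
    obtain ⟨A, hA⟩ := hcon T
    choose l hl using hA
    refine ⟨(A, l), ?_⟩
    funext t
    ext p
    simp only [Φ, mem_filter, mem_univ, true_and]
    rw [← gr_adj_edge F (T t) p]
    exact (hl t _ _ (by simp)).symm
  have hcard := Fintype.card_le_of_surjective Φ hsurj
  simp only [Fintype.card_prod, Fintype.card_pi, Fintype.card_fin, Fintype.card_bool, prod_const,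
    card_univ, Fintype.card_finset, Fintype.card_sum] at hcard
  rw [← pow_mul, ← pow_mul, ← pow_mul, ← pow_mul, ← pow_add] at hcard
  have h1 := (Nat.pow_le_pow_iff_right (by norm_num : 1 < 2)).mp hcard
  have h2 : 2 ^ B * 2 ^ B = 2 ^ (2 * B) := by rw [← pow_add]; congr 1; ring
  rw [h2] at h1
  have h3 : 0 < 2 ^ (2 * B) := by positivity
  have h4 : 2 ^ (2 * B) + B * ((N + d * q) * 2 ^ (2 * B)) = (1 + B * (N + d * q)) * 2 ^ (2 * B) := by ring
  rw [h4] at h1
  exact absurd (Nat.le_of_mul_le_mul_right h1 h3) (by omega)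

end Pool.Agent.Work.MP_3772ec_co
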