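import Mathlib
import Pool.Agent.Work.MP_3772ec_co.Family

/-!
Counting the small induced subgraphs of the graphs in the family.
-/

namespace Pool.Agent.Work.MP_3772ec_co
open Finset

variable {N d q : ℕ}

lemma gr_comap_eq (F : Fin N × Fin d → Fin q) (T : Finset (Fin N × Fin d)) {m : ℕ}
    (φ : Fin m → W N d q) :
    (gr F T).comap φ = (gr F (T ∩ eIn F (univ.image φ))).comap φ := by
  classical
  ext a b
  simp only [SimpleGraph.comap_adj, gr, SimpleGraph.fromRel_adj]
  have key : ∀ a b : Fin m, (∃ p ∈ T, φ a = Sum.inl p.1 ∧ φ b = Sum.inr (p.2, F p)) ↔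
      (∃ p ∈ T ∩ eIn F (univ.image φ), φ a = Sum.inl p.1 ∧ φ b = Sum.inr (p.2, F p)) := by
    intro a b
    constructor
    · rintro ⟨p, hp, h1, h2⟩
      refine ⟨p, ?_, h1, h2⟩
      rw [mem_inter]
      refine ⟨hp, ?_⟩
      simp only [eIn, mem_filter, mem_univ, true_and]
      rw [← h1, ← h2]
      exact ⟨mem_image_of_mem _ (mem_univ _), mem_image_of_mem _ (mem_univ _)⟩
    · rintro ⟨p, hp, h1, h2⟩
      exact ⟨p, (mem_inter.mp hp).1, h1, h2⟩
  rw [key a b, key b a]

/-- Number of graphs on `Fin m` that are pulled back from subgraphs of the base graph. -/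
lemma ncard_all_le (F : Fin N × Fin d → Fin q) (m c : ℕ)
    (hc : ∀ S : Finset (W N d q), S.card ≤ m → (eIn F S).card ≤ c) :
    ({G : SimpleGraph (Fin m) | ∃ φ : Fin m → W N d q, ∃ T : Finset (Fin N × Fin d),
      G = (gr F T).comap φ}).ncard ≤ (N + d * q) ^ m * 2 ^ c := by
  classical
  have hsub : {G : SimpleGraph (Fin m) | ∃ φ : Fin m → W N d q, ∃ T : Finset (Fin N × Fin d),
      G = (gr F T).comap φ} ⊆
      ((univ : Finset (Fin m → W N d q)).biUnion
        (fun φ => (eIn F (univ.image φ)).powerset.image (fun T => (gr F T).comap φ)) :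
          Finset (SimpleGraph (Fin m))) := by
    rintro G ⟨φ, T, rfl⟩
    simp only [coe_biUnion, Set.mem_iUnion, mem_coe, mem_univ]
    refine ⟨φ, trivial, ?_⟩
    rw [mem_image]
    refine ⟨T ∩ eIn F (univ.image φ), ?_, (gr_comap_eq F T φ).symm⟩
    rw [mem_powerset]
    exact inter_subset_right
  refine (Set.ncard_le_ncard hsub (Finset.finite_toSet _)).trans ?_
  rw [Set.ncard_coe_finset]
  refine card_biUnion_le.trans ?_
  calc ∑ φ : Fin m → W N d q, ((eIn F (univ.image φ)).powerset.image (fun T => (gr F T).comap φ)).card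
      ≤ ∑ _φ : Fin m → W N d q, 2 ^ c := by
        apply sum_le_sum
        intro φ _
        refine card_image_le.trans ?_
        rw [card_powerset]
        apply Nat.pow_le_pow_right (by norm_num)
        apply hc
        refine card_image_le.trans ?_
        simp
    _ = (N + d * q) ^ m * 2 ^ c := by
        rw [sum_const, card_univ]
        simp

/-- Number of graphs on `Fin m` pulled back from a family of `r` graphs. -/
lemma ncard_family_le (F : Fin N × Fin d → Fin q) (m r : ℕ)
    (T : Fin r → Finset (Fin N × Fin d)) :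
    ({G : SimpleGraph (Fin m) | ∃ φ : Fin m → W N d q, ∃ t : Fin r,
      G = (gr F (T t)).comap φ}).ncard ≤ (N + d * q) ^ m * r := by
  classical
  have hsub : {G : SimpleGraph (Fin m) | ∃ φ : Fin m → W N d q, ∃ t : Fin r,
      G = (gr F (T t)).comap φ} ⊆
      ((univ : Finset ((Fin m → W N d q) × Fin r)).image
        (fun X => (gr F (T X.2)).comap X.1) : Finset (SimpleGraph (Fin m))) := by
    rintro G ⟨φ, t, rfl⟩
    rw [mem_coe, mem_image]
    exact ⟨(φ, t), mem_univ _, rfl⟩
  refine (Set.ncard_le_ncard hsub (Finset.finite_toSet _)).trans ?_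
  rw [Set.ncard_coe_finset]
  refine card_image_le.trans ?_
  rw [card_univ]
  simp

/-- Number of graphs on `Fin m` given by few ordered pairs. -/
lemma ncard_sparse_le (m c : ℕ) :
    ({G : SimpleGraph (Fin m) | ∃ R : Finset (Fin m × Fin m), R.card ≤ c ∧
      G = SimpleGraph.fromRel (fun a b => (a, b) ∈ R)}).ncard ≤ (m ^ 2 + 1) ^ c := by
  classical
  have hsub : {G : SimpleGraph (Fin m) | ∃ R : Finset (Fin m × Fin m), R.card ≤ c ∧
      G = SimpleGraph.fromRel (fun a b => (a, b) ∈ R)} ⊆
      ((univ : Finset (Fin c → Option (Fin m × Fin m))).image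
        (fun f => SimpleGraph.fromRel (fun a b => ∃ i, f i = some (a, b))) :
          Finset (SimpleGraph (Fin m))) := by
    rintro G ⟨R, hR, rfl⟩
    rw [mem_coe, mem_image]
    obtain ⟨e⟩ : Nonempty (Fin R.card ≃ R) := ⟨(R.equivFin).symm⟩
    refine ⟨fun i => if h : i.1 < R.card then some (e ⟨i.1, h⟩).1 else none, mem_univ _, ?_⟩
    have key : ∀ a b : Fin m, (∃ i : Fin c, (if h : i.1 < R.card then
        some (e ⟨i.1, h⟩).1 else none) = some (a, b)) ↔ (a, b) ∈ R := by
      intro a b
      constructor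
      · rintro ⟨i, hi⟩
        split_ifs at hi with h
        rw [← Option.some_inj.mp hi]
        exact (e ⟨i.1, h⟩).2
      · intro hab
        have h1 : (e.symm ⟨(a, b), hab⟩).1 < R.card := (e.symm ⟨(a, b), hab⟩).2
        refine ⟨⟨(e.symm ⟨(a, b), hab⟩).1, lt_of_lt_of_le h1 hR⟩, ?_⟩
        simp
    ext a b
    simp only [SimpleGraph.fromRel_adj, key]
  refine (Set.ncard_le_ncard hsub (Finset.finite_toSet _)).trans ?_
  rw [Set.ncard_coe_finset]
  refine card_image_le.trans ?_
  rw [card_univ]
  simp [sq]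

/-- A pullback of a subgraph of a locally sparse base graph has few edges. -/
lemma comap_mem_sparse (F : Fin N × Fin d → Fin q) (T : Finset (Fin N × Fin d)) (m c : ℕ)
    (hm : 0 < m) (hc : ∀ S : Finset (W N d q), S.card ≤ m → (eIn F S).card ≤ c)
    (φ : Fin m ↪ W N d q) :
    (gr F T).comap φ ∈ {G : SimpleGraph (Fin m) | ∃ R : Finset (Fin m × Fin m), R.card ≤ c ∧
      G = SimpleGraph.fromRel (fun a b => (a, b) ∈ R)} := by
  classical
  have : Nonempty (Fin m) := ⟨⟨0, hm⟩⟩
  refine ⟨univ.filter (fun X : Fin m × Fin m => ∃ p ∈ T, φ X.1 = Sum.inl p.1 ∧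
    φ X.2 = Sum.inr (p.2, F p)), ?_, ?_⟩
  · have hinv : Function.LeftInverse (Function.invFun φ) φ := Function.leftInverse_invFun φ.injective
    have hsub : (univ.filter (fun X : Fin m × Fin m => ∃ p ∈ T, φ X.1 = Sum.inl p.1 ∧
        φ X.2 = Sum.inr (p.2, F p))) ⊆
        (eIn F (univ.image φ)).image (fun p => (Function.invFun φ (Sum.inl p.1 : W N d q),
          Function.invFun φ (Sum.inr (p.2, F p) : W N d q))) := by
      rintro ⟨a, b⟩ hab
      simp only [mem_filter, mem_univ, true_and] at hab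
      obtain ⟨p, hp, h1, h2⟩ := hab
      rw [mem_image]
      refine ⟨p, ?_, ?_⟩
      · simp only [eIn, mem_filter, mem_univ, true_and]
        rw [← h1, ← h2]
        exact ⟨mem_image_of_mem _ (mem_univ _), mem_image_of_mem _ (mem_univ _)⟩
      · rw [← h1, ← h2, hinv a, hinv b]
    refine (card_le_card hsub).trans (card_image_le.trans (hc _ ?_))
    refine card_image_le.trans ?_
    simp
  · ext a b
    simp only [SimpleGraph.comap_adj, gr, SimpleGraph.fromRel_adj, mem_filter, mem_univ, true_and]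
    rw [φ.injective.ne_iff]

end Pool.Agent.Work.MP_3772ec_co
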